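import Pool.Agent.MP_6a4325_al.H84.Spec3
import Pool.Agent.MP_6a4325_al.H79.Ln2
import Pool.Agent.MP_6a4325_al.H3.Ext

/-!
Row EAL: elementary amenable groups with the property `W` are locally polycyclic-by-finite.
-/

set_option autoImplicit false

namespace Pool.Agent.MP_6a4325_al.H17

open Pool.Agent.MP_6a4325_al.H62 Pool.Agent.MP_6a4325_al.H84 Pool.Agent.MP_6a4325_al.H3 Function

section A

variable {Q P : Type} [Group Q] [Group P]

theorem fg_step (hQ : ∀ M : Subgroup Q, M.FG → H79.NoAsc M) (f : Q →* P) (hf : Surjective f)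
    {K K' : Subgroup P} (h : Cyc K K') (hK : (K'.comap f).FG) : (K.comap f).FG := by
  obtain ⟨hle, hn, t, ht, e⟩ := h
  obtain ⟨σ, rfl⟩ := hf t
  have h1 : K'.comap f = K.comap f ⊔ Subgroup.zpowers σ := by
    refine le_antisymm ?_ (sup_le (Subgroup.comap_mono hle) (Subgroup.zpowers_le.2 ht))
    rw [e, ← Subgroup.comap_sup_eq f _ _ hf, ← MonoidHom.map_zpowers, Subgroup.comap_map_eq]
    exact sup_le le_sup_left (sup_le le_sup_right ((Subgroup.ker_le_comap f K).trans le_sup_left))
  have h2 : ((K.comap f).subgroupOf (K'.comap f)).Normal := ⟨fun x hx g => by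
    have := hn _ g.2 _ hx
    rwa [← map_inv, ← map_mul, ← map_mul] at this⟩
  refine H79.fg_of_subgroupOf (Subgroup.comap_mono hle) (H79.fg_of_cyc (hQ _ hK)
    ((Group.fg_iff_subgroup_fg _).2 hK) _ h2 ⟨σ, ht⟩ ?_)
  apply Subgroup.map_injective (K'.comap f).subtype_injective
  rw [Subgroup.map_sup, Subgroup.subgroupOf_map_subtype, MonoidHom.map_zpowers,
    inf_eq_left.2 (Subgroup.comap_mono hle), ← MonoidHom.range_eq_map, Subgroup.range_subtype]
  exact h1.symm

theorem fg_down (hQ : ∀ M : Subgroup Q, M.FG → H79.NoAsc M) (f : Q →* P) (hf : Surjective f)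
    {n : ℕ} {H K : Subgroup P} (h : PCr n H K) : (K.comap f).FG → (H.comap f).FG := by
  induction h with
  | refl => exact id
  | fin _ hc _ ih => exact fun h => ih (fg_step hQ f hf hc h)
  | inf _ hc ih => exact fun h => ih (fg_step hQ f hf hc h)

theorem w_sec {F : Type} [Field F] (hW : W F Q) (h : Sec Q P) : W F P := by
  obtain ⟨H, _, i, f, hi, hf⟩ := h
  exact (hW.of_inj i hi).of_surj f hf

theorem fg_normal (hP : SPoly) (hH : SHNN) (p : ℕ) [Fact p.Prime] (hfg : Group.FG Q)
    (hW : W (ZMod p) Q) (N : Subgroup Q) [N.Normal] (h : NVS (Q ⧸ N)) : N.FG := by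
  obtain ⟨N₁, -, hfi, n, hn⟩ := hP _ h
  have h1 := H3.finiteIndex_comap N₁ (QuotientGroup.mk' N)
  have h2 : Group.FG (N₁.comap (QuotientGroup.mk' N)) := Subgroup.fg_of_index_ne_zero _
  have h3 := fg_down
    (fun M hM => hH p M ((Group.fg_iff_subgroup_fg _).2 hM) ((hW.sub _).sub M))
    ((QuotientGroup.mk' N).subgroupComap N₁)
    (MonoidHom.subgroupComap_surjective_of_surjective _ _ (QuotientGroup.mk'_surjective N)) hn
    (by rw [Subgroup.comap_top]; exact h2.out)
  have h4 := H7.fg_map h3 (N₁.comap (QuotientGroup.mk' N)).subtype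
  refine (?_ : _ = N) ▸ h4
  ext x
  constructor
  · rintro ⟨y, hy, rfl⟩
    exact (QuotientGroup.eq_one_iff _).1 (congrArg Subtype.val (Subgroup.mem_bot.1 hy))
  · intro hx
    have h5 : QuotientGroup.mk' N x = 1 := (QuotientGroup.eq_one_iff _).2 hx
    exact ⟨⟨x, by rw [Subgroup.mem_comap, h5]; exact one_mem _⟩,
      Subgroup.mem_bot.2 (Subtype.ext h5), rfl⟩

end A

/-- row EAL -/
theorem eal : PCApi → VsApi → SPoly → SHNN → SEal := by
  intro _ vs hP hH p _ G _ h
  suffices key : ∀ (Q : Type) [Group Q], Sec G Q → Group.FG Q → W (ZMod p) Q → NVS Q from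
    fun hW H hH => key H (Sec.of_inj _ H.subtype_injective) ((Group.fg_iff_subgroup_fg _).2 hH)
      (hW.sub H)
  induction h with
  | finite G hG =>
    rintro Q _ ⟨H, _, i, f, hi, hf⟩ - -
    have := Finite.of_injective _ hi
    exact vs.nFin Q (Finite.of_surjective _ hf)
  | abelian G hG =>
    rintro Q _ ⟨H, _, i, f, hi, hf⟩ hfg -
    have hc : ∀ a b : Q, a * b = b * a := fun a b => by
      obtain ⟨a, rfl⟩ := hf a
      obtain ⟨b, rfl⟩ := hf b
      rw [← map_mul, ← map_mul, hi (show i (a * b) = i (b * a) by rw [map_mul, map_mul, hG])]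
    let _ : CommGroup Q := { (inferInstance : Group Q) with mul_comm := hc }
    exact ⟨fun K => H7.fg_of_comm K, ⊤, inferInstance, inferInstance⟩
  | sub G H f hf _ ih => exact fun Q _ hs => ih Q ((Sec.of_inj f hf).trans hs)
  | quot G R f hf _ ih => exact fun Q _ hs => ih Q ((Sec.of_surj f hf).trans hs)
  | ext G N _ _ ih₁ ih₂ =>
    rintro Q _ ⟨H, _, i, f, hi, hf⟩ hfg hQ
    have : ((N.comap i).map f).Normal := Subgroup.Normal.map inferInstance f hf
    have h1 : NVS (Q ⧸ (N.comap i).map f) := by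
      refine ih₂ _ ⟨H ⧸ N.comap i, inferInstance, QuotientGroup.map _ N i le_rfl,
        QuotientGroup.map _ _ f (Subgroup.le_comap_map _ _), ?_, ?_⟩
        (Group.fg_of_surjective (QuotientGroup.mk'_surjective _)) (hQ.quot _)
      · rw [← MonoidHom.ker_eq_bot_iff, QuotientGroup.ker_map, QuotientGroup.map_mk'_self]
      · exact QuotientGroup.map_surjective_of_surjective _ _ _
          ((QuotientGroup.mk'_surjective _).comp hf) _
    exact vs.nExt Q _ (ih₁ _ (sec_map i hi f N)
      ((Group.fg_iff_subgroup_fg _).2 (fg_normal hP hH p hfg hQ _ h1)) (hQ.sub _)) h1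
  | union G ι S hd hc _ ih =>
    rintro Q _ ⟨H, _, i, f, hi, hf⟩ hfg hQ
    obtain ⟨T, hT⟩ := hfg.out
    classical
    choose g hg using hf
    choose k hk using hc
    have : Nonempty ι := ⟨k 1⟩
    obtain ⟨z, hz⟩ := hd.finset_le (T.image fun t => k (i (g t)))
    have hle : ⊤ ≤ ((S z).comap i).map f := by
      rw [← hT, Subgroup.closure_le]
      intro t ht
      exact ⟨g t, hz _ (Finset.mem_image_of_mem _ ht) (hk _), hg t⟩
    exact ih z _ ((sec_map i hi f (S z)).trans (Sec.of_surj (Subgroup.subtype _)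
      fun q => ⟨⟨q, hle trivial⟩, rfl⟩)) hfg hQ

end Pool.Agent.MP_6a4325_al.H17
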